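import Pool.Agent.Helper39.DL.Goals

namespace Pool.Agent.Helper12.DL

open Module MeasureTheory Metric
open scoped RealInnerProductSpace ENNReal

variable (E : Type) [NormedAddCommGroup E] [InnerProductSpace ℝ E] [FiniteDimensional ℝ E]
  [MeasurableSpace E] [BorelSpace E]

theorem countVol : Pool.Agent.Helper39.DL.CountVol E := by
  intro X m C ε B hm hC hε hsep hB hcov
  set d := finrank ℝ E with hd
  set L : ℝ := C + m / 2 with hL
  have hLpos : 0 < L := by positivity
  set v : ℝ := (volume (ball (0 : E) 1)).toReal with hv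
  have hvtop : volume (ball (0 : E) 1) ≠ ∞ := measure_ball_lt_top.ne
  have hvof : volume (ball (0 : E) 1) = ENNReal.ofReal v := (ENNReal.ofReal_toReal hvtop).symm
  have hvpos : 0 < v := ENNReal.toReal_pos (measure_ball_pos _ _ one_pos).ne' hvtop
  have hball : ∀ (x : E) (r : ℝ), 0 < r → volume (ball x r) = ENNReal.ofReal (r ^ d * v) := by
    intro x r hr
    rw [Measure.addHaar_ball_of_pos _ _ hr, hvof, ← ENNReal.ofReal_mul (by positivity)]
  have hcball : ∀ (x : E) (r : ℝ), 0 ≤ r →
      volume (closedBall x r) = ENNReal.ofReal (r ^ d * v) := by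
    intro x r hr
    rw [Measure.addHaar_closedBall _ _ hr, hvof, ← ENNReal.ofReal_mul (by positivity)]
  set X' : Set E := {x | x ∈ X ∧ ‖x‖ ≤ L + C} with hX'
  have key : ∀ F : Finset E, (∀ x ∈ F, x ∈ X') →
      (F.card : ℝ) * ((m / 2) ^ d * v) ≤ (2 * L) ^ d * v := by
    intro F hF
    have hdisj : (F : Set E).PairwiseDisjoint (fun x => ball x (m / 2)) := by
      intro x hx y hy hxy
      have h1 := hsep x (hF x hx).1 y (hF y hy).1 hxy
      refine ball_disjoint_ball ?_
      rw [dist_eq_norm]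
      linarith
    have hsub : (⋃ x ∈ F, ball x (m / 2)) ⊆ closedBall (0 : E) (2 * L) := by
      intro p hp
      simp only [Set.mem_iUnion, exists_prop] at hp
      obtain ⟨x, hx, hpx⟩ := hp
      have h2 := (hF x hx).2
      rw [mem_ball, dist_eq_norm] at hpx
      rw [mem_closedBall, dist_zero_right]
      have h3 : ‖p‖ ≤ ‖p - x‖ + ‖x‖ := by
        have := norm_add_le (p - x) x
        simpa using this
      linarith
    have h4 : volume (⋃ x ∈ F, ball x (m / 2)) ≤ volume (closedBall (0 : E) (2 * L)) :=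
      measure_mono hsub
    rw [measure_biUnion_finset hdisj (fun _ _ => measurableSet_ball), hcball _ _ (by positivity),
      Finset.sum_congr rfl (fun x _ => hball x (m / 2) (by positivity)), Finset.sum_const,
      nsmul_eq_mul, ← ENNReal.ofReal_natCast, ← ENNReal.ofReal_mul (Nat.cast_nonneg _)] at h4
    exact (ENNReal.ofReal_le_ofReal_iff (by positivity)).1 h4
  have hfin : X'.Finite := by
    by_contra hinf
    have hinf' : X'.Infinite := hinf
    obtain ⟨n, hn⟩ := exists_nat_gt ((2 * L) ^ d * v / ((m / 2) ^ d * v))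
    obtain ⟨F, hF, hFn⟩ := hinf'.exists_subset_card_eq n
    have h5 := key F (fun x hx => hF hx)
    rw [hFn] at h5
    have h6 : 0 < (m / 2) ^ d * v := by positivity
    rw [div_lt_iff₀ h6] at hn
    linarith
  set F := hfin.toFinset with hFdef
  have hN := key F (fun x hx => hfin.mem_toFinset.1 hx)
  have hcover : ball (0 : E) L ⊆ ⋃ x ∈ F, B x := by
    intro p hp
    obtain ⟨z, hz, hzp, hpz⟩ := hcov p
    rw [mem_ball, dist_zero_right] at hp
    have h7 : ‖z‖ ≤ ‖z - p‖ + ‖p‖ := by
      have := norm_add_le (z - p) p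
      simpa using this
    simp only [Set.mem_iUnion, exists_prop]
    exact ⟨z, hfin.mem_toFinset.2 ⟨hz, by linarith⟩, hpz⟩
  have h8 : ENNReal.ofReal (L ^ d * v) ≤ ENNReal.ofReal ((F.card : ℝ) * ε) := by
    calc ENNReal.ofReal (L ^ d * v) = volume (ball (0 : E) L) := (hball _ _ hLpos).symm
      _ ≤ volume (⋃ x ∈ F, B x) := measure_mono hcover
      _ ≤ ∑ x ∈ F, volume (B x) := measure_biUnion_finset_le _ _
      _ ≤ ∑ _x ∈ F, ENNReal.ofReal ε :=
          Finset.sum_le_sum (fun x hx => hB x (hfin.mem_toFinset.1 hx).1)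
      _ = ENNReal.ofReal ((F.card : ℝ) * ε) := by
          rw [Finset.sum_const, nsmul_eq_mul, ← ENNReal.ofReal_natCast,
            ← ENNReal.ofReal_mul (Nat.cast_nonneg _)]
  have h9 : L ^ d * v ≤ (F.card : ℝ) * ε :=
    (ENNReal.ofReal_le_ofReal_iff (mul_nonneg (Nat.cast_nonneg _) hε)).1 h8
  rw [hball _ _ (by positivity)]
  apply ENNReal.ofReal_le_ofReal
  have hN' : (F.card : ℝ) * (m / 2) ^ d ≤ (2 * L) ^ d := by
    have : ((F.card : ℝ) * (m / 2) ^ d) * v ≤ (2 * L) ^ d * v := by linarith [hN]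
    exact le_of_mul_le_mul_right this hvpos
  have h10 : (m / 4) ^ d = (m / 2) ^ d / 2 ^ d := by
    rw [← div_pow]; congr 1; ring
  have h11 : (2 * L) ^ d = 2 ^ d * L ^ d := mul_pow _ _ _
  have hLd : 0 < L ^ d := by positivity
  have h12 : L ^ d * ((m / 2) ^ d * v) ≤ L ^ d * (2 ^ d * ε) := by
    calc L ^ d * ((m / 2) ^ d * v) = (m / 2) ^ d * (L ^ d * v) := by ring
      _ ≤ (m / 2) ^ d * ((F.card : ℝ) * ε) := by
          exact mul_le_mul_of_nonneg_left h9 (by positivity)
      _ = ((F.card : ℝ) * (m / 2) ^ d) * ε := by ring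
      _ ≤ (2 * L) ^ d * ε := mul_le_mul_of_nonneg_right hN' hε
      _ = L ^ d * (2 ^ d * ε) := by rw [h11]; ring
  have h13 : (m / 2) ^ d * v ≤ 2 ^ d * ε := le_of_mul_le_mul_left h12 hLd
  rw [h10]
  have h2d : (0 : ℝ) < 2 ^ d := by positivity
  rw [div_mul_eq_mul_div, div_le_iff₀ h2d]
  linarith

end Pool.Agent.Helper12.DL
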